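import Pool.Agent.Q240.KT.Stm

/-!
# Project KT (helper240): reflection of the smooth factors
-/

set_option autoImplicit false

namespace Pool.Agent.Q198.KT

open Finset Pool.Agent.H376R2.MR Pool.Agent.Q240.KS Pool.Agent.Q240.KT

theorem DP_neg (s : Finset ℕ) (a : ℕ → ℝ) (k : ℤ) :
    DP s (fun n => ((a n : ℝ) : ℂ)) (-k) = (starRingEnd ℂ) (DP s (fun n => ((a n : ℝ) : ℂ)) k) := by
  unfold DP
  rw [map_sum]
  refine Finset.sum_congr rfl fun n _ => ?_
  rw [map_mul, Complex.conj_ofReal]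
  congr 1
  unfold ch
  rw [← Complex.exp_conj]
  congr 1
  rw [map_mul, map_neg, Complex.conj_I, Complex.conj_ofReal]
  push_cast
  ring

theorem norm_DP_neg (s : Finset ℕ) (a : ℕ → ℝ) (k : ℤ) :
    ‖DP s (fun n => ((a n : ℝ) : ℂ)) (-k)‖ = ‖DP s (fun n => ((a n : ℝ) : ℂ)) k‖ := by
  rw [DP_neg, Complex.norm_conj]

theorem norm_DP_abs (s : Finset ℕ) (a : ℕ → ℝ) (k : ℤ) :
    ‖DP s (fun n => ((a n : ℝ) : ℂ)) |k|‖ = ‖DP s (fun n => ((a n : ℝ) : ℂ)) k‖ := by
  rcases abs_choice k with h | h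
  · rw [h]
  · rw [h, norm_DP_neg]

theorem w_cont : Continuous w := by
  unfold w
  fun_prop

theorem w_nonneg (s : ℝ) : 0 ≤ w s := le_max_left _ _

theorem w_le_one (s : ℝ) : w s ≤ 1 := by
  unfold w
  exact max_le (by norm_num) (by linarith [abs_nonneg s])

theorem am20'_zero {p q s₀ s : ℝ} (h : ¬ |s - s₀| < 1 / 20) : am20' p q s₀ s = 0 := if_neg h

theorem am20'_bound (p q s₀ s : ℝ) : |am20' p q s₀ s| ≤ 20 * |p| + 2 * |q| := by
  unfold am20'
  have hp := abs_nonneg p
  have hq := abs_nonneg q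
  split_ifs with h h2
  · have h1 : |q * w (20 * (s - s₀))| ≤ |q| := by
      rw [abs_mul, abs_of_nonneg (w_nonneg _)]
      exact mul_le_of_le_one_right hq (w_le_one _)
    have h3 : |20 * (p + q * (s - s₀)) * 1| ≤ 20 * |p| + |q| := by
      rw [mul_one, abs_mul, abs_of_pos (by norm_num : (0 : ℝ) < 20)]
      have h4 : |p + q * (s - s₀)| ≤ |p| + |q| * (1 / 20) := by
        refine (abs_add_le _ _).trans ?_
        rw [abs_mul]
        have := mul_le_mul_of_nonneg_left h.le hq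
        linarith
      linarith
    calc _ ≤ |q * w (20 * (s - s₀))| + |20 * (p + q * (s - s₀)) * 1| := abs_sub _ _
      _ ≤ _ := by linarith
  · have h1 : |q * w (20 * (s - s₀))| ≤ |q| := by
      rw [abs_mul, abs_of_nonneg (w_nonneg _)]
      exact mul_le_of_le_one_right hq (w_le_one _)
    have h3 : |20 * (p + q * (s - s₀)) * -1| ≤ 20 * |p| + |q| := by
      rw [mul_neg_one, abs_neg, abs_mul, abs_of_pos (by norm_num : (0 : ℝ) < 20)]
      have h4 : |p + q * (s - s₀)| ≤ |p| + |q| * (1 / 20) := by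
        refine (abs_add_le _ _).trans ?_
        rw [abs_mul]
        have := mul_le_mul_of_nonneg_left h.le hq
        linarith
      linarith
    calc _ ≤ |q * w (20 * (s - s₀))| + |20 * (p + q * (s - s₀)) * -1| := abs_sub _ _
      _ ≤ _ := by linarith
  · rw [abs_zero]
    positivity

theorem am20'_meas (p q s₀ : ℝ) : Measurable (am20' p q s₀) := by
  unfold am20'
  refine Measurable.ite ?_ ?_ measurable_const
  · exact measurableSet_lt (by fun_prop) measurable_const
  · refine Measurable.sub ?_ ?_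
    · exact (w_cont.measurable.comp (by fun_prop)).const_mul q
    · refine Measurable.mul (by fun_prop) ?_
      exact Measurable.ite (measurableSet_le measurable_const measurable_id) measurable_const measurable_const

/-- the primitive of the exponential -/
noncomputable def Ep (κ r : ℝ) : ℂ := ∫ x in (0 : ℝ)..r, ep κ (-(2 * Real.pi)) x

theorem ep_cont (τ κ : ℝ) : Continuous (ep τ κ) := by
  unfold ep
  fun_prop

theorem Ep_cont (κ : ℝ) : Continuous (Ep κ) :=
  intervalIntegral.continuous_primitive (fun a b => (ep_cont _ _).intervalIntegrable a b) 0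

theorem Ep_bound {C : ℝ} (hEI : ∀ k a b : ℝ, 1 ≤ k → a ≤ b →
    ‖∫ s in a..b, ep k (-(2 * Real.pi)) s‖ ≤ C / k ^ (1 / 2 : ℝ)) {κ : ℝ} (hκ : 1 ≤ κ) (r : ℝ) :
    ‖Ep κ r‖ ≤ C / κ ^ (1 / 2 : ℝ) := by
  unfold Ep
  rcases le_total 0 r with h | h
  · exact hEI κ 0 r hκ h
  · rw [intervalIntegral.integral_symm, norm_neg]
    exact hEI κ r 0 hκ h

theorem int_term (p q s₀ κ ℓ M A B : ℝ) (hM : ∀ r, ‖Ep κ r‖ ≤ M) :
    IntervalIntegrable (fun r => ((am20' p q s₀ (r - ℓ) : ℝ) : ℂ) * Ep κ r) MeasureTheory.volume A B := by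
  have hb : ∀ r, ‖((am20' p q s₀ (r - ℓ) : ℝ) : ℂ) * Ep κ r‖ ≤ (20 * |p| + 2 * |q|) * M := by
    intro r
    rw [norm_mul, Complex.norm_real, Real.norm_eq_abs]
    exact mul_le_mul (am20'_bound _ _ _ _) (hM r) (norm_nonneg _) (by positivity)
  have hm : MeasureTheory.AEStronglyMeasurable (fun r => ((am20' p q s₀ (r - ℓ) : ℝ) : ℂ) * Ep κ r)
      MeasureTheory.volume := by
    apply Measurable.aestronglyMeasurable
    refine Measurable.mul ?_ (Ep_cont κ).measurable
    exact Complex.measurable_ofReal.comp ((am20'_meas p q s₀).comp (by fun_prop))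
  rw [intervalIntegrable_iff]
  exact MeasureTheory.Measure.integrableOn_of_bounded (by
    unfold Set.uIoc
    exact measure_Ioc_lt_top.ne) hm (Filter.Eventually.of_forall hb)

/-- extension of the domain of integration -/
theorem int_ext (p q s₀ κ ℓ A B : ℝ) (hA : A ≤ s₀ - 1 / 20 + ℓ) (hB : s₀ + 1 / 20 + ℓ ≤ B) :
    ∫ r in (s₀ - 1 / 20 + ℓ)..(s₀ + 1 / 20 + ℓ), ((am20' p q s₀ (r - ℓ) : ℝ) : ℂ) * Ep κ r =
    ∫ r in A..B, ((am20' p q s₀ (r - ℓ) : ℝ) : ℂ) * Ep κ r := by
  rw [intervalIntegral.integral_of_le (by linarith), intervalIntegral.integral_of_le (by linarith)]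
  symm
  apply MeasureTheory.setIntegral_eq_of_subset_of_forall_sdiff_eq_zero measurableSet_Ioc
  · exact Set.Ioc_subset_Ioc hA hB
  · intro r hr
    rw [am20'_zero, Complex.ofReal_zero, zero_mul]
    intro h
    apply hr.2
    rw [abs_lt] at h
    exact ⟨by linarith [h.1], by linarith [h.2]⟩

/-- the sum of the kept terms -/
theorem kept (hI : S_IBP) {M : ℝ} (p q s₀ κ A B : ℝ) (J : ℕ) (hM : ∀ r, ‖Ep κ r‖ ≤ M)
    (hA : A ≤ s₀ - 1 / 20) (hB : ∀ j ∈ Icc 1 J, s₀ + 1 / 20 + Real.log (j : ℕ) ≤ B) :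
    ∑ j ∈ Icc 1 J, ∫ s in (s₀ - 1 / 20)..(s₀ + 1 / 20),
      ((am20 p q s₀ s : ℝ) : ℂ) * ep κ (-(2 * Real.pi * j)) s =
    -∫ r in A..B, ∑ j ∈ Icc 1 J, Complex.exp (((κ * Real.log j : ℝ) : ℂ) * Complex.I) *
      (((am20' p q s₀ (r - Real.log j) : ℝ) : ℂ) * Ep κ r) := by
  rw [intervalIntegral.integral_finsetSum, ← Finset.sum_neg_distrib]
  · refine Finset.sum_congr rfl fun j hj => ?_
    have hj1 : 1 ≤ j := (Finset.mem_Icc.1 hj).1
    have hl : 0 ≤ Real.log j := Real.log_nonneg (by exact_mod_cast hj1)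
    rw [hI p q s₀ κ j hj1, intervalIntegral.integral_const_mul, neg_mul]
    congr 2
    exact int_ext p q s₀ κ (Real.log j) A B (by linarith) (hB j hj)
  · intro j hj
    exact (int_term p q s₀ κ (Real.log j) M A B hM).const_mul _

/-- the polynomial at the point `r` -/
noncomputable def Gk (p q s₀ : ℝ) (J : ℕ) (k : ℤ) (r : ℝ) : ℝ :=
  ‖DP (Icc 1 J) (fun j => ((am20' p q s₀ (r - Real.log j) : ℝ) : ℂ)) k‖

theorem Gk_int (p q s₀ A B : ℝ) (J : ℕ) (k : ℤ) :
    IntervalIntegrable (Gk p q s₀ J k) MeasureTheory.volume A B := by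
  have hb : ∀ r, ‖Gk p q s₀ J k r‖ ≤ ∑ j ∈ Icc 1 J, (20 * |p| + 2 * |q|) := by
    intro r
    unfold Gk DP
    rw [norm_norm]
    refine (norm_sum_le _ _).trans (Finset.sum_le_sum fun j _ => ?_)
    rw [norm_mul, Complex.norm_real, Real.norm_eq_abs]
    have : ‖ch k (Real.log j)‖ = 1 := by
      unfold ch
      rw [show (-(((k : ℝ) * Real.log j : ℝ) : ℂ)) * Complex.I =
        ((-((k : ℝ) * Real.log j) : ℝ) : ℂ) * Complex.I by push_cast; ring]
      exact Complex.norm_exp_ofReal_mul_I _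
    rw [this, mul_one]
    exact am20'_bound _ _ _ _
  have hm : MeasureTheory.AEStronglyMeasurable (Gk p q s₀ J k) MeasureTheory.volume := by
    apply Measurable.aestronglyMeasurable
    unfold Gk DP
    refine Measurable.norm ?_
    refine Finset.measurable_sum _ fun j _ => ?_
    refine Measurable.mul_const ?_ _
    exact Complex.measurable_ofReal.comp ((am20'_meas p q s₀).comp (by fun_prop))
  rw [intervalIntegrable_iff]
  exact MeasureTheory.Measure.integrableOn_of_bounded (by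
    unfold Set.uIoc
    exact measure_Ioc_lt_top.ne) hm (Filter.Eventually.of_forall hb)

theorem kept_norm (hI : S_IBP) {M : ℝ} (p q s₀ A B : ℝ) (J : ℕ) (k : ℤ) (hM : ∀ r, ‖Ep k r‖ ≤ M)
    (hAB : A ≤ B) (hA : A ≤ s₀ - 1 / 20) (hB : ∀ j ∈ Icc 1 J, s₀ + 1 / 20 + Real.log (j : ℕ) ≤ B) :
    ‖∑ j ∈ Icc 1 J, ∫ s in (s₀ - 1 / 20)..(s₀ + 1 / 20),
      ((am20 p q s₀ s : ℝ) : ℂ) * ep k (-(2 * Real.pi * j)) s‖ ≤ M * ∫ r in A..B, Gk p q s₀ J k r := by
  rw [kept hI p q s₀ k A B J hM hA hB, norm_neg]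
  refine (intervalIntegral.norm_integral_le_integral_norm hAB).trans ?_
  rw [← intervalIntegral.integral_const_mul]
  have key : ∀ r, ‖∑ j ∈ Icc 1 J, Complex.exp ((((k : ℝ) * Real.log j : ℝ) : ℂ) * Complex.I) *
      (((am20' p q s₀ (r - Real.log j) : ℝ) : ℂ) * Ep k r)‖ ≤ M * Gk p q s₀ J k r := by
    intro r
    have e : ∑ j ∈ Icc 1 J, Complex.exp ((((k : ℝ) * Real.log j : ℝ) : ℂ) * Complex.I) *
        (((am20' p q s₀ (r - Real.log j) : ℝ) : ℂ) * Ep k r) =
        DP (Icc 1 J) (fun j => ((am20' p q s₀ (r - Real.log j) : ℝ) : ℂ)) (-k) * Ep k r := by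
      unfold DP
      rw [Finset.sum_mul]
      refine Finset.sum_congr rfl fun j _ => ?_
      have : ch (-k) (Real.log j) = Complex.exp ((((k : ℝ) * Real.log j : ℝ) : ℂ) * Complex.I) := by
        unfold ch
        congr 1
        push_cast
        ring
      rw [this]
      ring
    rw [e, norm_mul, norm_DP_neg, mul_comm]
    exact mul_le_mul_of_nonneg_right (hM r) (norm_nonneg _)
  refine intervalIntegral.integral_mono_on hAB ?_ ((Gk_int p q s₀ A B J k).const_mul M) fun r _ => key r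
  apply IntervalIntegrable.norm
  have := IntervalIntegrable.sum (Icc 1 J) (μ := MeasureTheory.volume) (a := A) (b := B)
    (f := fun j r => Complex.exp ((((k : ℝ) * Real.log (j : ℕ) : ℝ) : ℂ) * Complex.I) *
      (((am20' p q s₀ (r - Real.log j) : ℝ) : ℂ) * Ep k r))
    (fun j _ => (int_term p q s₀ k (Real.log j) M A B hM).const_mul _)
  have e : (fun r => ∑ j ∈ Icc 1 J, Complex.exp ((((k : ℝ) * Real.log (j : ℕ) : ℝ) : ℂ) * Complex.I) *
      (((am20' p q s₀ (r - Real.log j) : ℝ) : ℂ) * Ep k r)) =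
      ∑ j ∈ Icc 1 J, fun r => Complex.exp ((((k : ℝ) * Real.log (j : ℕ) : ℝ) : ℂ) * Complex.I) *
      (((am20' p q s₀ (r - Real.log j) : ℝ) : ℂ) * Ep k r) := by
    funext r
    rw [Finset.sum_apply]
  rw [e]
  exact this

/-- first moment method -/
theorem first_moment {A B : ℝ} (hAB : A < B) {G : ℝ → ℝ}
    (hG : IntervalIntegrable G MeasureTheory.volume A B) : ∃ r, A ≤ r ∧ r ≤ B ∧
      ∫ x in A..B, G x ≤ (B - A) * G r := by
  have h1 : MeasureTheory.volume (Set.Ioc A B) ≠ 0 := by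
    rw [Real.volume_Ioc]
    simp [hAB]
  have h2 : MeasureTheory.volume (Set.Ioc A B) ≠ ⊤ := measure_Ioc_lt_top.ne
  obtain ⟨r, hr, h⟩ := MeasureTheory.exists_setAverage_le h1 h2
    ((intervalIntegrable_iff_integrableOn_Ioc_of_le hAB.le).1 hG)
  refine ⟨r, hr.1.le, hr.2, ?_⟩
  rw [intervalIntegral.integral_of_le hAB.le]
  rw [MeasureTheory.setAverage_eq, MeasureTheory.measureReal_def, Real.volume_Ioc, ENNReal.toReal_ofReal (by linarith),
    smul_eq_mul] at h
  have hBA : 0 < B - A := by linarith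
  calc _ = (B - A) * ((B - A)⁻¹ * ∫ x in Set.Ioc A B, G x) := by field_simp
    _ ≤ _ := mul_le_mul_of_nonneg_left h hBA.le

theorem rfl_fin {C₁ C₂ D ℓ x y U V : ℝ} (h1 : 0 ≤ C₁) (h2 : 0 ≤ C₂) (h3 : 0 ≤ 1 + D) (h4 : 0 ≤ ℓ) (h5 : 0 ≤ x)
    (h6 : y ≤ 1 + ℓ) (h7 : 0 ≤ U) (h8 : 0 ≤ V) :
    C₂ * x * (y * (50 * (1 + D) * U)) + C₁ * (1 + D) * V ≤
      (50 * C₂ + C₁) * (1 + D) * (1 + ℓ) * (x * U + V) := by
  have h9 : 0 ≤ (1 + D) * (x * U) := by positivity
  have h10 : 50 * C₂ * y ≤ 50 * C₂ * (1 + ℓ) := mul_le_mul_of_nonneg_left h6 (by positivity)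
  have h11 : 50 * C₂ * y * ((1 + D) * (x * U)) ≤ 50 * C₂ * (1 + ℓ) * ((1 + D) * (x * U)) :=
    mul_le_mul_of_nonneg_right h10 h9
  have h12 : 0 ≤ C₁ * (1 + ℓ) * ((1 + D) * (x * U)) := by positivity
  have h13 : 0 ≤ C₁ * (1 + D) * V * ℓ := by positivity
  have h14 : 0 ≤ 50 * C₂ * (1 + D) * (1 + ℓ) * V := by positivity
  nlinarith [h11, h12, h13, h14]

/-- **reflection** -/
theorem rfl_of (hEI : S_EI) (hPSN : S_PSN) (hIBP : S_IBP) : S_RFL := by
  classical
  obtain ⟨C₂, hC₂, hE⟩ := hEI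
  obtain ⟨C₁, hC₁, hP⟩ := hPSN
  refine ⟨50 * C₂ + C₁, by linarith, ?_⟩
  intro z t d T L ht hT hL hd
  have hd0 : (0 : ℝ) ≤ d := Nat.cast_nonneg d
  have hlT : 0 ≤ Real.log T := Real.log_nonneg hT
  have hT0 : (0 : ℝ) < T := by linarith
  set s₀ : ℝ := (d : ℝ) / 20 with hs₀
  have hs₀0 : 0 ≤ s₀ := by positivity
  set p : ℝ := if t = 1 then 1 else (d : ℝ) / 20 with hp
  set q : ℝ := if t = 1 then 0 else 1 with hq
  have hpq : 20 * |p| + 2 * |q| ≤ 50 * (1 + d) := by
    rw [hp, hq]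
    split_ifs
    · rw [abs_one, abs_zero]
      linarith
    · rw [abs_one, abs_of_nonneg (by positivity)]
      linarith
  set J : ℕ := ⌊2 * T * Real.exp (-s₀)⌋₊ with hJ
  -- one factor
  have hone : ∀ k ∈ L, ‖PF z t d k‖ ≤ ‖∑ j ∈ Icc 1 J, ∫ s in (s₀ - 1 / 20)..(s₀ + 1 / 20),
      ((am20 p q s₀ s : ℝ) : ℂ) * ep ((|k| : ℤ) : ℝ) (-(2 * Real.pi * j)) s‖ +
        C₁ * (1 + d) * Real.exp (-((d : ℝ) / 10)) := by
    intro k hk
    have h1 := hP z t d T |k| ht hT (by rw [Int.cast_abs]; exact (hL k hk).1)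
      (by rw [Int.cast_abs]; exact (hL k hk).2) hd
    have h2 : ‖PF z t d k‖ = ‖PF z t d |k|‖ := by
      unfold PF
      rw [norm_DP_abs]
    rw [h2]
    calc ‖PF z t d |k|‖ = ‖(∑ j ∈ Icc 1 J, ∫ s in (s₀ - 1 / 20)..(s₀ + 1 / 20),
        ((am20 p q s₀ s : ℝ) : ℂ) * ep ((|k| : ℤ) : ℝ) (-(2 * Real.pi * j)) s) +
        (PF z t d |k| - ∑ j ∈ Icc 1 J, ∫ s in (s₀ - 1 / 20)..(s₀ + 1 / 20),
        ((am20 p q s₀ s : ℝ) : ℂ) * ep ((|k| : ℤ) : ℝ) (-(2 * Real.pi * j)) s)‖ := by
          congr 1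
          ring
      _ ≤ _ := (norm_add_le _ _).trans (add_le_add le_rfl h1)
  have hC0 : (0 : ℝ) ≤ (50 * C₂ + C₁) * (1 + d) * (1 + Real.log T) := by positivity
  have hC1 : C₁ * (1 + d) ≤ (50 * C₂ + C₁) * (1 + d) * (1 + Real.log T) := by
    calc C₁ * (1 + d) ≤ (50 * C₂ + C₁) * (1 + d) := mul_le_mul_of_nonneg_right (by linarith) (by positivity)
      _ = (50 * C₂ + C₁) * (1 + d) * 1 := by ring
      _ ≤ _ := mul_le_mul_of_nonneg_left (by linarith) (by positivity)
  by_cases hJ1 : 2 * T * Real.exp (-s₀) < 1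
  · -- no kept terms
    have hJ0 : J = 0 := Nat.floor_eq_zero.2 hJ1
    refine ⟨1, ∅, fun _ => 0, le_rfl, ?_, by simp, by simp, ?_⟩
    · have : 0 < T * Real.exp (-s₀) := by positivity
      linarith
    · have h3 : ∀ k ∈ L, ‖PF z t d k‖ ≤ C₁ * (1 + d) * Real.exp (-((d : ℝ) / 10)) := by
        intro k hk
        have := hone k hk
        rw [hJ0] at this
        simpa using this
      calc ∑ k ∈ L, ‖PF z t d k‖ ≤ ∑ k ∈ L, C₁ * (1 + d) * Real.exp (-((d : ℝ) / 10)) := Finset.sum_le_sum h3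
        _ = C₁ * (1 + d) * (Real.exp (-((d : ℝ) / 10)) * L.card) := by
          rw [Finset.sum_const, nsmul_eq_mul]
          ring
        _ ≤ (50 * C₂ + C₁) * (1 + d) * (1 + Real.log T) * (Real.exp (-((d : ℝ) / 10)) * L.card) :=
          mul_le_mul_of_nonneg_right hC1 (by positivity)
        _ ≤ _ := by
          apply mul_le_mul_of_nonneg_left _ hC0
          have : (0 : ℝ) ≤ T ^ (-(1 / 2) : ℝ) * ∑ k ∈ L, ‖DP ∅ (fun n => (((0 : ℝ) : ℝ) : ℂ)) k‖ := by
            positivity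
          linarith
  · push Not at hJ1
    set A : ℝ := s₀ - 1 / 20 with hA
    set B : ℝ := 1 / 20 + Real.log (2 * T) with hB
    have hlog : Real.log (2 * T * Real.exp (-s₀)) = Real.log (2 * T) - s₀ := by
      rw [Real.log_mul (by positivity) (Real.exp_pos _).ne', Real.log_exp]
      ring
    have hlog0 : 0 ≤ Real.log (2 * T) - s₀ := by
      rw [← hlog]
      exact Real.log_nonneg hJ1
    have hAB : A < B := by linarith
    have hBA : B - A ≤ 1 + Real.log T := by
      have h2 : Real.log (2 * T) = Real.log 2 + Real.log T := Real.log_mul (by norm_num) hT0.ne'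
      have h3 : Real.log 2 < 0.7 := by
        have := Real.log_two_lt_d9
        linarith
      linarith
    have hBj : ∀ j ∈ Icc 1 J, s₀ + 1 / 20 + Real.log (j : ℕ) ≤ B := by
      intro j hj
      have hj1 : 1 ≤ j := (Finset.mem_Icc.1 hj).1
      have hj0 : (0 : ℝ) < j := by exact_mod_cast hj1
      have hj2 : (j : ℝ) ≤ 2 * T * Real.exp (-s₀) :=
        (Nat.le_floor_iff (by positivity)).1 (Finset.mem_Icc.1 hj).2
      have hj3 := Real.log_le_log hj0 hj2
      rw [hlog] at hj3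
      linarith
    -- the mean over `r`
    obtain ⟨r, hr1, hr2, hr3⟩ := first_moment hAB (G := fun r => ∑ k ∈ L, Gk p q s₀ J k r) (by
      have := IntervalIntegrable.sum L (μ := MeasureTheory.volume) (a := A) (b := B)
        (f := fun k r => Gk p q s₀ J k r) (fun k _ => Gk_int p q s₀ A B J k)
      have e : (fun r => ∑ k ∈ L, Gk p q s₀ J k r) = ∑ k ∈ L, fun r => Gk p q s₀ J k r := by
        funext r
        rw [Finset.sum_apply]
      rw [e]
      exact this)
    rw [intervalIntegral.integral_finsetSum (fun k _ => Gk_int p q s₀ A B J k)] at hr3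
    have hTm : (0 : ℝ) < T ^ (-(1 / 2) : ℝ) := Real.rpow_pos_of_pos hT0 _
    have hsum1 : ∑ k ∈ L, ‖PF z t d k‖ ≤ C₂ * T ^ (-(1 / 2) : ℝ) * ((B - A) * ∑ k ∈ L, Gk p q s₀ J k r) +
        C₁ * (1 + d) * (Real.exp (-((d : ℝ) / 10)) * L.card) := by
      have h4 : ∀ k ∈ L, ‖PF z t d k‖ ≤ C₂ * T ^ (-(1 / 2) : ℝ) * (∫ r in A..B, Gk p q s₀ J k r) +
          C₁ * (1 + d) * Real.exp (-((d : ℝ) / 10)) := by
        intro k hk
        refine (hone k hk).trans (add_le_add ?_ le_rfl)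
        have hk1 : T ≤ ((|k| : ℤ) : ℝ) := by rw [Int.cast_abs]; exact (hL k hk).1
        have h5 : ∀ r, ‖Ep ((|k| : ℤ) : ℝ) r‖ ≤ C₂ * T ^ (-(1 / 2) : ℝ) := by
          intro r
          refine (Ep_bound hE (hT.trans hk1) r).trans ?_
          rw [Real.rpow_neg hT0.le, ← div_eq_mul_inv]
          apply div_le_div_of_nonneg_left (by linarith) (Real.rpow_pos_of_pos hT0 _)
          exact Real.rpow_le_rpow hT0.le hk1 (by norm_num)
        have h6 := kept_norm hIBP p q s₀ A B J |k| h5 hAB.le le_rfl hBj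
        refine h6.trans (le_of_eq ?_)
        congr 1
        refine intervalIntegral.integral_congr fun r _ => ?_
        exact norm_DP_abs _ _ _
      calc ∑ k ∈ L, ‖PF z t d k‖ ≤ ∑ k ∈ L, (C₂ * T ^ (-(1 / 2) : ℝ) * (∫ r in A..B, Gk p q s₀ J k r) +
          C₁ * (1 + d) * Real.exp (-((d : ℝ) / 10))) := Finset.sum_le_sum h4
        _ = C₂ * T ^ (-(1 / 2) : ℝ) * (∑ k ∈ L, ∫ r in A..B, Gk p q s₀ J k r) +
          C₁ * (1 + d) * (Real.exp (-((d : ℝ) / 10)) * L.card) := by
          rw [Finset.sum_add_distrib, ← Finset.mul_sum, Finset.sum_const, nsmul_eq_mul]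
          ring
        _ ≤ _ := by
          refine add_le_add ?_ le_rfl
          exact mul_le_mul_of_nonneg_left hr3 (by positivity)
    -- the choice of the data
    set s : Finset ℕ := (Icc 1 J).filter (fun j : ℕ => |r - Real.log j - s₀| < 1 / 20) with hs
    set a : ℕ → ℝ := fun j => am20' p q s₀ (r - Real.log j) / (50 * (1 + d)) with ha
    have h50 : (0 : ℝ) < 50 * (1 + d) := by positivity
    have hGs : ∀ k, Gk p q s₀ J k r = 50 * (1 + d) * ‖DP s (fun n => ((a n : ℝ) : ℂ)) k‖ := by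
      intro k
      have h7 : DP (Icc 1 J) (fun j => ((am20' p q s₀ (r - Real.log j) : ℝ) : ℂ)) k =
          ((50 * (1 + d) : ℝ) : ℂ) * DP s (fun n => ((a n : ℝ) : ℂ)) k := by
        unfold DP
        rw [Finset.mul_sum, hs, Finset.sum_filter]
        refine Finset.sum_congr rfl fun j _ => ?_
        split_ifs with h8
        · rw [ha, ← mul_assoc, ← Complex.ofReal_mul]
          congr 2
          field_simp
        · show ((am20' p q s₀ (r - Real.log j) : ℝ) : ℂ) * ch k (Real.log j) = 0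
          rw [am20'_zero h8, Complex.ofReal_zero, zero_mul]
      unfold Gk
      rw [h7, norm_mul, Complex.norm_real, Real.norm_of_nonneg h50.le]
    have hlogH : Real.log (max 1 (Real.exp (r - s₀))) = max 0 (r - s₀) := by
      rcases le_total (r - s₀) 0 with h | h
      · rw [max_eq_left (by
          calc Real.exp (r - s₀) ≤ Real.exp 0 := Real.exp_le_exp.2 h
            _ = 1 := Real.exp_zero), max_eq_left h, Real.log_one]
      · rw [max_eq_right (Real.one_le_exp h), max_eq_right h, Real.log_exp]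
    refine ⟨max 1 (Real.exp (r - s₀)), s, a, le_max_left _ _, ?_, ?_, ?_, ?_⟩
    · apply max_le
      · have : 0 < T * Real.exp (-s₀) := by positivity
        linarith
      · have h9 : Real.exp (r - s₀) ≤ 3 * T * Real.exp (-s₀) := by
          have h10 : Real.exp r ≤ 3 * T := by
            calc Real.exp r ≤ Real.exp (1 / 20 + Real.log (2 * T)) := Real.exp_le_exp.2 hr2
              _ = Real.exp (1 / 20) * (2 * T) := by rw [Real.exp_add, Real.exp_log (by positivity)]
              _ ≤ 3 / 2 * (2 * T) := by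
                apply mul_le_mul_of_nonneg_right _ (by positivity)
                have h11 : Real.exp (1 / 20) ≤ 1 / (1 - 1 / 20) := by
                  have := Real.one_sub_le_exp_neg (1 / 20)
                  rw [Real.exp_neg] at this
                  rw [le_div_iff₀ (by norm_num)]
                  have he := Real.exp_pos (1 / 20)
                  have h12 := mul_le_mul_of_nonneg_left this he.le
                  rw [mul_inv_cancel₀ he.ne'] at h12
                  exact h12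
                refine h11.trans (by norm_num)
              _ = 3 * T := by ring
          rw [sub_eq_add_neg, Real.exp_add]
          exact mul_le_mul_of_nonneg_right h10 (Real.exp_pos _).le
        linarith
    · intro n hn
      rw [hs, Finset.mem_filter, Finset.mem_Icc] at hn
      have hn0 : 0 ≤ Real.log n := Real.log_nonneg (by exact_mod_cast hn.1.1)
      refine ⟨hn.1.1, ?_⟩
      have h13 := abs_lt.1 hn.2
      rw [hlogH]
      rcases le_total (r - s₀) 0 with h | h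
      · rw [max_eq_left h, abs_le]
        constructor <;> linarith [h13.1, h13.2]
      · rw [max_eq_right h, abs_le]
        constructor <;> linarith [h13.1, h13.2]
    · intro n _
      rw [ha]
      show |am20' p q s₀ (r - Real.log n) / (50 * (1 + d))| ≤ 1
      rw [abs_div, abs_of_pos h50, div_le_one h50]
      exact (am20'_bound _ _ _ _).trans hpq
    · refine hsum1.trans ?_
      have h14 : ∑ k ∈ L, Gk p q s₀ J k r = 50 * (1 + d) * ∑ k ∈ L, ‖DP s (fun n => ((a n : ℝ) : ℂ)) k‖ := by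
        rw [Finset.mul_sum]
        exact Finset.sum_congr rfl fun k _ => hGs k
      rw [h14]
      have hU0 : 0 ≤ ∑ k ∈ L, ‖DP s (fun n => ((a n : ℝ) : ℂ)) k‖ := Finset.sum_nonneg fun k _ => norm_nonneg _
      exact rfl_fin (by linarith) (by linarith) (by linarith) hlT hTm.le hBA hU0
        (mul_nonneg (Real.exp_pos _).le (Nat.cast_nonneg _))

end Pool.Agent.Q198.KT
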